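import Pool.Agent.W834.NG.Sol

/-!
# Translates inside sets modelled on projective norm graphs
-/

set_option autoImplicit false

namespace Pool.Agent.TH61.CHG

open Finset Pool.Agent.W834.NG

/-- at most `m!` solutions of `m + 1` norm equations -/
theorem sol_le {K : Type} [Field K] {m : ℕ} (hm : 0 < m) (φ : K →+* K) {I : Type} [DecidableEq I]
    (X : Finset I) (hX : X.card = m + 1) (c a : I → K) (hc : Set.InjOn c X) (S : Finset K)
    (b : K → K) (hS : ∀ s ∈ S, ∀ i ∈ X, ∏ j : Fin m, φ^[j] (s + c i) = a i * b s) :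
    S.card ≤ m.factorial := by
  classical
  obtain ⟨n, rfl⟩ : ∃ n, m = n + 1 := ⟨m - 1, by omega⟩
  refine (card_le_F hm φ c a X S b hS).trans ?_
  refine F_triv S.card n X ?_ (by omega) univ ∅ (Finset.disjoint_empty_right _) ?_
  · intro k i hi j hj hij
    exact hc hi hj ((φ.injective.iterate (k : ℕ)) hij)
  · simp

/-- the abstract form: a set of integers with a map to a field -/
theorem few_translates {K : Type} [Field K] {m : ℕ} (hm : 0 < m) (φ : K →+* K) (A : Set ℤ)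
    (ψ : ℤ → K) (hinj : Set.InjOn ψ A) (h0 : ∀ a ∈ A, ψ a ≠ 0)
    (hadd : ∀ a ∈ A, ∀ b ∈ A, ∀ c ∈ A, ∀ d ∈ A, a + d = b + c → ψ a + ψ d = ψ b + ψ c)
    (hmul : ∀ a ∈ A, ∀ b ∈ A, ∀ c ∈ A, ∀ d ∈ A, a + d = b + c →
      (∏ j : Fin m, φ^[j] (ψ a)) * (∏ j : Fin m, φ^[j] (ψ d)) =
        (∏ j : Fin m, φ^[j] (ψ b)) * (∏ j : Fin m, φ^[j] (ψ c)))
    (X T : Finset ℤ) (hX : X.card = m + 1) (hXT : ∀ x ∈ X, ∀ t ∈ T, x + t ∈ A) :
    T.card ≤ m.factorial := by
  classical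
  rcases T.eq_empty_or_nonempty with hT | ⟨t₀, ht₀⟩
  · rw [hT, Finset.card_empty]; exact Nat.zero_le _
  obtain ⟨x₀, hx₀⟩ := Finset.card_pos.1 (show 0 < X.card by omega)
  set N : K → K := fun z => ∏ j : Fin m, φ^[j] z with hN
  have hN0 : ∀ z, z ≠ 0 → N z ≠ 0 := by
    intro z hz
    refine Finset.prod_ne_zero_iff.2 fun j _ h => hz ?_
    exact (φ.injective.iterate (j : ℕ)) (h.trans (iterate_map_zero φ _).symm)
  set c : ℤ → K := fun x => ψ (x + t₀) with hc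
  set s : ℤ → K := fun t => ψ (x₀ + t) - ψ (x₀ + t₀) with hs
  have hsc : ∀ x ∈ X, ∀ t ∈ T, s t + c x = ψ (x + t) := by
    intro x hx t ht
    have := hadd _ (hXT x hx t ht) _ (hXT x₀ hx₀ t ht) _ (hXT x hx t₀ ht₀) _ (hXT x₀ hx₀ t₀ ht₀)
      (by ring)
    simp only [hs, hc]
    linear_combination -this
  have hsinj : Set.InjOn s T := by
    intro t ht t' ht' h
    simp only [hs] at h
    have h1 : ψ (x₀ + t) = ψ (x₀ + t') := by linear_combination h
    have := hinj (hXT x₀ hx₀ t ht) (hXT x₀ hx₀ t' ht') h1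
    omega
  have key := sol_le hm φ X hX c (fun x => N (ψ (x + t₀))) (by
      intro x hx y hy h
      have := hinj (hXT x hx t₀ ht₀) (hXT y hy t₀ ht₀) h
      omega) (T.image s) (fun z => N (z + c x₀) / N (ψ (x₀ + t₀))) (by
    intro z hz x hx
    obtain ⟨t, ht, rfl⟩ := Finset.mem_image.1 hz
    have e1 : N (s t + c x) = N (ψ (x + t)) := by rw [hsc x hx t ht]
    have e2 : N (s t + c x₀) = N (ψ (x₀ + t)) := by rw [hsc x₀ hx₀ t ht]
    have h1 := hN0 _ (h0 _ (hXT x₀ hx₀ t₀ ht₀))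
    have h2 : N (ψ (x + t)) * N (ψ (x₀ + t₀)) = N (ψ (x₀ + t)) * N (ψ (x + t₀)) :=
      hmul _ (hXT x hx t ht) _ (hXT x₀ hx₀ t ht) _ (hXT x hx t₀ ht₀) _ (hXT x₀ hx₀ t₀ ht₀)
        (by ring)
    show N (s t + c x) = N (ψ (x + t₀)) * (N (s t + c x₀) / N (ψ (x₀ + t₀)))
    rw [e1, e2]
    field_simp
    linear_combination h2)
  rwa [Finset.card_image_of_injOn hsinj] at key

end Pool.Agent.TH61.CHG
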