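import Pool.Agent.TH61.CHG.Core

/-!
# The sets of integers
-/

set_option autoImplicit false

namespace Pool.Agent.TH61.CHG

open Finset

/-- digits -/
theorem digits_add {B n : ℕ} {ι : Type} (d : ι → Fin n → ℕ) (hd : ∀ x i, 2 * d x i < B)
    (x y z w : ι) (h : ∑ i, d x i * B ^ (i : ℕ) + ∑ i, d w i * B ^ (i : ℕ) =
      ∑ i, d y i * B ^ (i : ℕ) + ∑ i, d z i * B ^ (i : ℕ)) (i : Fin n) :
    d x i + d w i = d y i + d z i := by
  have hb : ∀ (x w : ι) i, d x i + d w i < B := by
    intro x w i
    have h1 := hd x i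
    have h2 := hd w i
    omega
  have e : ∀ x w : ι, ∑ i, d x i * B ^ (i : ℕ) + ∑ i, d w i * B ^ (i : ℕ) =
      (finFunctionFinEquiv (fun i => (⟨d x i + d w i, hb x w i⟩ : Fin B)) : ℕ) := by
    intro x w
    rw [finFunctionFinEquiv_apply, ← Finset.sum_add_distrib]
    exact Finset.sum_congr rfl fun i _ => (add_mul _ _ _).symm
  rw [e, e] at h
  have h1 := finFunctionFinEquiv.injective (Fin.ext h)
  have h2 := congrFun h1 i
  exact congrArg Fin.val h2

theorem digits_lt {B n : ℕ} (d : Fin n → ℕ) (hd : ∀ i, d i < B) :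
    ∑ i, d i * B ^ (i : ℕ) < B ^ n := by
  have e : ∑ i, d i * B ^ (i : ℕ) =
      (finFunctionFinEquiv (fun i => (⟨d i, hd i⟩ : Fin B)) : ℕ) := by
    rw [finFunctionFinEquiv_apply]
  rw [e]
  exact Fin.is_lt _

/-- the norm is fixed by the Frobenius map -/
theorem norm_fix {K : Type} [Field K] (φ : K →+* K) (m : ℕ) (hφ : ∀ x, φ^[m] x = x) (x : K)
    (hx : x ≠ 0) : φ (∏ j : Fin m, φ^[j] x) = ∏ j : Fin m, φ^[j] x := by
  have h1 : φ (∏ j : Fin m, φ^[j] x) = ∏ j ∈ Finset.range m, φ^[j + 1] x := by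
    rw [map_prod, Fin.prod_univ_eq_prod_range (fun j => φ (φ^[j] x)) m]
    refine Finset.prod_congr rfl fun j _ => ?_
    rw [Function.iterate_succ_apply']
  have h2 : ∏ j : Fin m, φ^[j] x = ∏ j ∈ Finset.range m, φ^[j] x := by
    rw [Fin.prod_univ_eq_prod_range (fun j => φ^[j] x) m]
  have h3 : (∏ j ∈ Finset.range m, φ^[j + 1] x) * φ^[0] x =
      (∏ j ∈ Finset.range m, φ^[j] x) * φ^[m] x :=
    (Finset.prod_range_succ' (fun j => φ^[j] x) m).symm.trans
      (Finset.prod_range_succ (fun j => φ^[j] x) m)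
  rw [hφ x] at h3
  rw [h1, h2]
  exact mul_right_cancel₀ hx h3

/-- the construction for a prime `p` -/
theorem exists_set (p m : ℕ) [hp : Fact p.Prime] (hm : 0 < m) :
    ∃ A : Finset ℤ, (∀ a ∈ A, 1 ≤ a ∧ a ≤ (2 * p : ℤ) ^ (m + 1)) ∧ A.card = p ^ m - 1 ∧
      ∀ X T : Finset ℤ, X.card = m + 1 → (∀ x ∈ X, ∀ t ∈ T, x + t ∈ A) →
        T.card ≤ m.factorial := by
  classical
  have hm' : m ≠ 0 := by omega
  let K := GaloisField p m
  have : Fintype K := Fintype.ofFinite K
  have hcard : Fintype.card K = p ^ m := by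
    rw [← Nat.card_eq_fintype_card]
    exact GaloisField.card p m hm'
  have hp2 : 2 ≤ p := hp.out.two_le
  set φ : K →+* K := frobenius K p with hφ
  have hper : ∀ x : K, φ^[m] x = x := by
    intro x
    rw [hφ, iterate_frobenius, ← hcard, FiniteField.pow_card]
  set N : K → K := fun z => ∏ j : Fin m, φ^[j] z with hN
  have hNmul : ∀ x y : K, N (x * y) = N x * N y := by
    intro x y
    simp only [hN]
    rw [← Finset.prod_mul_distrib]
    exact Finset.prod_congr rfl fun j _ => iterate_map_mul φ _ _ _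
  have hNone : N 1 = 1 := by
    simp only [hN]
    exact Finset.prod_eq_one fun j _ => iterate_map_one φ _
  have hNpow : ∀ (x : K) (k : ℕ), N (x ^ k) = N x ^ k := by
    intro x k
    induction k with
    | zero => rw [pow_zero, pow_zero, hNone]
    | succ k ih => rw [pow_succ, hNmul, ih, pow_succ]
  obtain ⟨g, hg⟩ := IsCyclic.exists_generator (α := Kˣ)
  have hN0 : N (g : K) ≠ 0 := by
    refine Finset.prod_ne_zero_iff.2 fun j _ h => g.ne_zero ?_
    exact (φ.injective.iterate (j : ℕ)) (h.trans (iterate_map_zero φ _).symm)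
  have hv : N (g : K) ^ (p - 1) = 1 := by
    have h1 : φ (N (g : K)) = N (g : K) := norm_fix φ m hper _ g.ne_zero
    rw [hφ, frobenius_def] at h1
    have h2 : N (g : K) ^ (p - 1) * N (g : K) = 1 * N (g : K) := by
      rw [← pow_succ, Nat.sub_add_cancel (by omega), h1, one_mul]
    exact mul_right_cancel₀ hN0 h2
  have hpow : ∀ x : Kˣ, ∃ k : ℕ, g ^ k = x := by
    intro x
    have := hg x
    rw [← mem_powers_iff_mem_zpowers] at this
    exact this
  choose k hk using hpow
  set e : Kˣ → ℕ := fun x => k x % (p - 1) with he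
  have he1 : ∀ x, e x < p := by
    intro x
    have := Nat.mod_lt (k x) (show 0 < p - 1 by omega)
    simp only [he]
    omega
  have hNe : ∀ x : Kˣ, N (x : K) = N (g : K) ^ e x := by
    intro x
    have h1 : (x : K) = (g : K) ^ k x := by
      rw [← Units.val_pow_eq_pow_val, hk]
    rw [h1, hNpow]
    conv_lhs => rw [← Nat.div_add_mod (k x) (p - 1), pow_add, pow_mul, hv, one_pow, one_mul]
  have L : K ≃ₗ[ZMod p] (Fin m → ZMod p) :=
    LinearEquiv.ofFinrankEq _ _ (by rw [GaloisField.finrank p hm', Module.finrank_fin_fun])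
  set d : Kˣ → Fin (m + 1) → ℕ := fun x i =>
    if h : (i : ℕ) < m then (L (x : K) ⟨i, h⟩).val else e x with hd
  have hdB : ∀ x i, 2 * d x i < 2 * p := by
    intro x i
    simp only [hd]
    split_ifs with h
    · have := ZMod.val_lt (L (x : K) ⟨i, h⟩)
      omega
    · have := he1 x
      omega
  set s : Kˣ → ℕ := fun x => ∑ i, d x i * (2 * p) ^ (i : ℕ) with hs
  -- additivity
  have hadd : ∀ x y z w : Kˣ, s x + s w = s y + s z →
      (x : K) + w = y + z ∧ N (x : K) * N (w : K) = N (y : K) * N (z : K) := by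
    intro x y z w h
    have hdig := digits_add d hdB x y z w h
    constructor
    · apply L.injective
      funext i
      have h1 := hdig ⟨i, by omega⟩
      simp only [hd, i.2, dif_pos] at h1
      have h2 := congrArg (fun n : ℕ => (n : ZMod p)) h1
      simp only [Nat.cast_add, ZMod.natCast_val, ZMod.cast_id', id] at h2
      rw [map_add, map_add, Pi.add_apply, Pi.add_apply]
      exact h2
    · have h1 := hdig (Fin.last m)
      simp only [hd, Fin.val_last, lt_irrefl, dif_neg, not_false_eq_true] at h1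
      rw [hNe x, hNe w, hNe y, hNe z, ← pow_add, ← pow_add, h1]
  have hsinj : Function.Injective s := by
    intro x w h
    have hdig := digits_add d hdB x w w x (by
      show s x + s x = s w + s w
      rw [h])
    apply Units.ext
    apply L.injective
    funext i
    have h1 := hdig ⟨i, by omega⟩
    simp only [hd, i.2, dif_pos] at h1
    have h2 : (L (x : K) i).val + (L (x : K) i).val = (L (w : K) i).val + (L (w : K) i).val := by
      rw [Fin.eta] at h1
      omega
    exact ZMod.val_injective p (by omega)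
  have hsB : ∀ x, s x < (2 * p) ^ (m + 1) := by
    intro x
    refine digits_lt (d x) fun i => ?_
    have := hdB x i
    omega
  set α : Kˣ → ℤ := fun x => ((s x + 1 : ℕ) : ℤ) with hα
  have hαinj : Function.Injective α := by
    intro x w h
    apply hsinj
    simp only [hα] at h
    omega
  set ψ : ℤ → K := fun z => if h : ∃ x : Kˣ, α x = z then ((h.choose : Kˣ) : K) else 0 with hψ
  have hψα : ∀ x : Kˣ, ψ (α x) = x := by
    intro x
    have h : ∃ y : Kˣ, α y = α x := ⟨x, rfl⟩
    simp only [hψ]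
    rw [dif_pos h]
    exact congrArg _ (hαinj h.choose_spec)
  refine ⟨univ.image α, ?_, ?_, ?_⟩
  · intro a ha
    obtain ⟨x, _, rfl⟩ := Finset.mem_image.1 ha
    have h1 := hsB x
    simp only [hα]
    constructor
    · omega
    · have h2 : s x + 1 ≤ (2 * p) ^ (m + 1) := h1
      calc ((s x + 1 : ℕ) : ℤ) ≤ (((2 * p) ^ (m + 1) : ℕ) : ℤ) := by exact_mod_cast h2
        _ = (2 * p : ℤ) ^ (m + 1) := by push_cast; ring
  · rw [Finset.card_image_of_injective _ hαinj, Finset.card_univ, Fintype.card_units, hcard]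
  · intro X T hX hXT
    have hmem : ∀ a : ℤ, a ∈ (univ.image α : Finset ℤ) → ∃ x : Kˣ, α x = a := by
      intro a ha
      obtain ⟨x, _, rfl⟩ := Finset.mem_image.1 ha
      exact ⟨x, rfl⟩
    have hsum : ∀ x y z w : Kˣ, α x + α w = α y + α z → s x + s w = s y + s z := by
      intro x y z w h
      simp only [hα] at h
      omega
    refine few_translates hm φ (↑(univ.image α : Finset ℤ)) ψ ?_ ?_ ?_ ?_ X T hX ?_
    · intro a ha b hb hab
      obtain ⟨x, rfl⟩ := hmem a ha
      obtain ⟨y, rfl⟩ := hmem b hb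
      rw [hψα, hψα] at hab
      rw [Units.ext hab]
    · intro a ha
      obtain ⟨x, rfl⟩ := hmem a ha
      rw [hψα]
      exact x.ne_zero
    · intro a ha b hb c hc d' hd' h
      obtain ⟨x, rfl⟩ := hmem a ha
      obtain ⟨y, rfl⟩ := hmem b hb
      obtain ⟨z, rfl⟩ := hmem c hc
      obtain ⟨w, rfl⟩ := hmem d' hd'
      rw [hψα, hψα, hψα, hψα]
      exact (hadd x y z w (hsum x y z w h)).1
    · intro a ha b hb c hc d' hd' h
      obtain ⟨x, rfl⟩ := hmem a ha
      obtain ⟨y, rfl⟩ := hmem b hb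
      obtain ⟨z, rfl⟩ := hmem c hc
      obtain ⟨w, rfl⟩ := hmem d' hd'
      rw [hψα, hψα, hψα, hψα]
      exact (hadd x y z w (hsum x y z w h)).2
    · intro x hx t ht
      exact hXT x hx t ht

end Pool.Agent.TH61.CHG
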